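import Pool.Agent.L7h40.P3.Point

set_option autoImplicit false

/-!
# Three exclusions at one point

In all statements `C i` moves the points of the orbit of `y` up.
-/

namespace Pool.Agent.L7h40.P3

section
variable {G Ω : Type*} [Group G] [LinearOrder Ω] [MulAction G Ω] (M : Mono G Ω)
  {a q b : ℕ} {X0 v0 w0 X1 v1 w1 X2 v2 w2 : G}

/-- All `C i` move the orbit of `y` up. -/
structure Pos (G : Type*) {Ω : Type*} [Group G] [LinearOrder Ω] [MulAction G Ω] (a b : ℕ)
    (X0 w0 X1 w1 X2 w2 : G) (y : Ω) : Prop where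
  c0 : ∀ g : G, g • y < (w0 ^ (b + 1) * X0 ^ a) • g • y
  c1 : ∀ g : G, g • y < (w1 ^ (b + 1) * X1 ^ a) • g • y
  c2 : ∀ g : G, g • y < (w2 ^ (b + 1) * X2 ^ a) • g • y

theorem Pos.rot {y : Ω} (P : Pos G a b X0 w0 X1 w1 X2 w2 y) :
    Pos G a b X1 w1 X2 w2 X0 w0 y := ⟨P.c1, P.c2, P.c0⟩

theorem Pos.c0' {y : Ω} (P : Pos G a b X0 w0 X1 w1 X2 w2 y) :
    y < (w0 ^ (b + 1) * X0 ^ a) • y := by simpa using P.c0 1

theorem Pos.at {y : Ω} (P : Pos G a b X0 w0 X1 w1 X2 w2 y) (h : G) :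
    Pos G a b X0 w0 X1 w1 X2 w2 (h • y) :=
  ⟨fun g => by simpa only [mul_smul] using P.c0 (g * h),
    fun g => by simpa only [mul_smul] using P.c1 (g * h),
    fun g => by simpa only [mul_smul] using P.c2 (g * h)⟩

include M

/-- `A 0` moves `y` down. -/
theorem S_excl (S : Sys a q b X0 v0 w0 X1 v1 w1 X2 v2 w2) (ha : 0 < a) (hq : a + 1 ≤ q)
    {y : Ω} (P : Pos G a b X0 w0 X1 w1 X2 w2 y) :
    v0 ^ (q + 1) • y < X0 ^ (a + 1) • y := by
  by_contra hA
  rw [not_lt] at hA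
  have e0 : (X0 ^ (a + 1))⁻¹ * v0 ^ (q + 1) = (X2 ^ (a + 1))⁻¹ * v2 ^ q * X2 := S.rot.rot.A0
  have hA' : y ≤ ((X0 ^ (a + 1))⁻¹ * v0 ^ (q + 1)) • y := by
    rw [mul_smul, le_inv M]; exact hA
  -- `X0` moves `y` up
  have s1 : y < X0 • y := by
    by_contra h
    rw [not_lt] at h
    have h1 := v_lt M S.p0 P.c0 h q
    have h2 := pow_anti M h (show a + 1 ≤ q + 1 by omega)
    exact absurd (h1.trans_le h2) (not_lt.mpr hA)
  have hL : X2 ^ (a + 1) • y ≤ v2 ^ q • X2 • y := by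
    rw [e0, mul_assoc, mul_smul, le_inv M, mul_smul] at hA'
    exact hA'
  have s2 : y < X2 • y := by
    by_contra h
    rw [not_lt] at h
    obtain ⟨k, hk⟩ : ∃ k, q = k + 1 := ⟨q - 1, by omega⟩
    have P2 := (P.at X2).c2
    have h1 := v_lt M S.p2 P2 (M _ _ _ h) k
    rw [← hk] at h1
    have h2 := pow_anti M (M X2 _ _ h) (show a ≤ q by omega)
    rw [← mul_smul (X2 ^ a), ← pow_succ] at h2
    exact absurd (h1.trans_le h2) (not_lt.mpr hL)
  have s3 : X2 • y < v2 • X2 • y := by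
    by_contra h
    rw [not_lt] at h
    have h1 := pow_le M h q
    have h2 : X2 • y < X2 ^ (a + 1) • y := by
      rw [pow_succ', mul_smul]
      exact mono_lt M _ (lt_pow M s2 ha)
    exact absurd (hL.trans h1) (not_le.mpr h2)
  -- `w2 y < X2 y`
  have s4 : w2 • y < X2 • y := by
    have h1 : w2 • y = v2⁻¹ • X2 • y := by rw [S.p2, mul_smul, inv_smul_smul]
    rw [h1, inv_lt M]; exact s3
  have e1 : X1 • X2 • y = X0⁻¹ • y := by rw [← mul_smul, S.X1X2]
  have s5 : X0⁻¹ • y < y := by rw [inv_lt M]; exact s1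
  have s6 : X1 • w2 • y < y := by
    refine (mono_lt M X1 s4).trans ?_
    rw [e1]; exact s5
  have s7 : X1 • y < y := by
    refine (mono_lt M X1 s2).trans ?_
    rw [e1]; exact s5
  -- the next stage
  have e2 : (X0 ^ (a + 1))⁻¹ * v0 ^ (q + 1) = (X1 ^ (a + 1))⁻¹ * v1 ^ (q + 1) * w0⁻¹ := by
    rw [S.a0]; group
  have s8 : X1 ^ (a + 1) • y ≤ v1 ^ q • X1 • w2 • y := by
    have e3 : v1 ^ (q + 1) * w0⁻¹ = v1 ^ q * (X1 * w2) := by
      rw [pow_succ, mul_assoc, S.v1w0]
    rw [e2, mul_assoc, mul_smul, le_inv M, e3] at hA'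
    simpa only [mul_smul] using hA'
  have s9 : v1 ^ q • X1 • w2 • y < v1 ^ q • y := mono_lt M _ s6
  obtain ⟨k, hk⟩ : ∃ k, q = k + 1 := ⟨q - 1, by omega⟩
  have s10 := v_lt M S.p1 P.c1 s7.le k
  rw [← hk] at s10
  have s11 := pow_anti M s7.le hq
  exact absurd ((s8.trans_lt s9).trans (s10.trans_le s11)) (lt_irrefl _)

/-- `B 0` moves `y` up. -/
theorem B_excl (S : Sys a q b X0 v0 w0 X1 v1 w1 X2 v2 w2) (ha : 0 < a) (hb : 0 < b)
    (hq : a ≤ q) {y : Ω} (P : Pos G a b X0 w0 X1 w1 X2 w2 y) :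
    y < (w0 ^ b * v0 ^ q) • y := by
  by_contra hB
  rw [not_lt] at hB
  have hB1 : w0 ^ b • v0 ^ q • y ≤ y := by simpa only [mul_smul] using hB
  have hC0 := P.c0'
  have hC1 := P.rot.c0'
  -- `v0` moves `y` down
  have l1 : v0 • y < y := by
    by_contra h
    rw [not_lt] at h
    have h1 : w0 ^ b • y ≤ y := (M _ _ _ (le_pow M h q)).trans hB1
    have h2 : w0 • y ≤ y := le_of_pow M hb h1
    have h3 : y < w0 ^ b • X0 ^ a • y := by
      rw [pow_succ', mul_assoc, mul_smul] at hC0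
      have := (lt_iff M w0).mp (h2.trans_lt hC0)
      rwa [mul_smul] at this
    have h4 : v0 ^ q • y < X0 ^ a • y := (lt_iff M (w0 ^ b)).mp (hB1.trans_lt h3)
    have h5 : ∀ j ≤ a, X0 ^ j • y ≤ v0 ^ j • y := by
      intro j
      induction j with
      | zero => intro _; simp
      | succ j ih =>
        intro hj
        have ih := ih (by omega)
        have h6 : w0 • v0 ^ j • y ≤ v0 ^ j • y := by
          by_contra h7
          rw [not_le] at h7
          have h8 := lt_pow M h7 hb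
          have h9 : w0 ^ b • v0 ^ j • y ≤ w0 ^ b • v0 ^ q • y :=
            M _ _ _ (pow_mono M h (by omega))
          exact absurd (h8.trans_le (h9.trans hB1)) (not_lt.mpr (le_pow M h j))
        rw [pow_succ', mul_smul, pow_succ' v0, mul_smul]
        calc X0 • X0 ^ j • y ≤ X0 • v0 ^ j • y := M _ _ _ ih
          _ = v0 • w0 • v0 ^ j • y := by conv_lhs => rw [S.p0, mul_smul]
          _ ≤ v0 • v0 ^ j • y := M _ _ _ h6
    exact absurd (h4.trans_le ((h5 a le_rfl).trans (pow_mono M h hq))) (lt_irrefl _)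
  -- `V = w2⁻¹ X2` moves `y` down
  have l1' : X2 • y < w2 • y := by
    by_contra h
    rw [not_lt] at h
    set V : G := w2⁻¹ * X2 with hV
    have hX2 : X2 = w2 * V := by rw [hV]; group
    have hVy : y ≤ V • y := by rw [hV, mul_smul, le_inv M]; exact h
    have hv2 : v2 = w2 * V * w2⁻¹ := by
      rw [← hX2, S.p2]; group
    have eB : w0 ^ b * v0 ^ q = w2 ^ (b + 1) * V ^ (q + 1) := by
      rw [S.b2, hv2, conj_pow, pow_succ w2, pow_succ V]
      conv_lhs => rw [hX2]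
      group
    have eC : w0 ^ (b + 1) * X0 ^ a = w2 ^ b * X2 ^ (a + 1) := S.rot.rot.C0
    rw [eB, mul_smul] at hB
    rw [eC, mul_smul] at hC0
    have h1 : w2 ^ (b + 1) • y ≤ y := (M _ _ _ (le_pow M hVy (q + 1))).trans hB
    have h2 : w2 • y ≤ y := le_of_pow M (Nat.succ_pos b) h1
    have h4 : V ^ q • y < X2 ^ a • y := by
      have h5 : w2 ^ (b + 1) • V ^ (q + 1) • y < w2 ^ b • X2 ^ (a + 1) • y := hB.trans_lt hC0
      rw [pow_succ w2, mul_smul, lt_iff M, ← mul_smul, pow_succ', ← mul_assoc, ← hX2,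
        pow_succ', mul_smul, mul_smul, lt_iff M] at h5
      exact h5
    have h5 : ∀ j ≤ a, X2 ^ j • y ≤ V ^ j • y := by
      intro j
      induction j with
      | zero => intro _; simp
      | succ j ih =>
        intro hj
        have ih := ih (by omega)
        have h6 : w2 • V ^ (j + 1) • y ≤ V ^ (j + 1) • y := by
          by_contra h7
          rw [not_le] at h7
          have h8 := lt_pow M h7 (Nat.succ_pos b)
          have h9 : w2 ^ (b + 1) • V ^ (j + 1) • y ≤ w2 ^ (b + 1) • V ^ (q + 1) • y :=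
            M _ _ _ (pow_mono M hVy (by omega))
          exact absurd (h8.trans_le (h9.trans hB)) (not_lt.mpr (le_pow M hVy (j + 1)))
        calc X2 ^ (j + 1) • y = X2 • X2 ^ j • y := by rw [pow_succ', mul_smul]
          _ ≤ X2 • V ^ j • y := M _ _ _ ih
          _ = w2 • V ^ (j + 1) • y := by
            rw [pow_succ', ← mul_smul, ← mul_smul, ← mul_assoc, ← hX2]
          _ ≤ _ := h6
    exact absurd (h4.trans_le ((h5 a le_rfl).trans (pow_mono M hVy hq))) (lt_irrefl _)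
  have l2 : y < w0 • y := by
    by_contra h
    rw [not_lt] at h
    have h1 := X_pos M hC0 h
    rw [S.p0, mul_smul] at h1
    exact absurd (h1.trans_le (M v0 _ _ h)) (not_lt.mpr l1.le)
  have l2' : y < w2 • y := by
    by_contra h
    rw [not_lt] at h
    have h1 : X2 • y ≤ y := l1'.le.trans h
    have eC : w0 ^ (b + 1) * X0 ^ a = w2 ^ b * X2 ^ (a + 1) := S.rot.rot.C0
    rw [eC, mul_smul] at hC0
    exact absurd hC0 (not_lt.mpr ((M _ _ _ (pow_le M h1 _)).trans (pow_le M h _)))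
  have e1 : w1 • w2 • y = w0⁻¹ • y := by
    have : w1 * w2 = w0⁻¹ := by
      have h := S.prodw
      have h2 : w1 * w2 = w0⁻¹ * (w0 * w1 * w2) := by group
      rw [h2, h]; group
    rw [← mul_smul, this]
  have l3 : w1 • y < y := by
    refine (mono_lt M w1 l2').trans ?_
    rw [e1, inv_lt M]; exact l2
  have l4 : y < X1 • y := X_pos M hC1 l3.le
  have l5 : X0 • w1 • y < y := by
    have : X0 * w1 = v0 * w2⁻¹ := by
      have h := S.prodw
      have h2 : v0 * w2⁻¹ = v0 * (w0 * w1 * w2) * w2⁻¹ := by rw [h]; group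
      rw [h2, S.p0]; group
    rw [← mul_smul, this, mul_smul]
    have h1 : w2⁻¹ • y < y := by rw [inv_lt M]; exact l2'
    exact (mono_lt M v0 h1).trans l1
  -- stage 1
  have l6 : w1 ^ b • v1 ^ q • w1 • y < y := by
    have e2 : w1 ^ b • v1 ^ q • w1 • y = (w0 ^ b * v0 ^ q) • X0 • w1 • y := by
      have e3 : w1 ^ b * v1 ^ q * w1 = w0 ^ b * v0 ^ q * X0 * w1 := by rw [S.b0]
      have e4 := congrArg (fun g : G => g • y) e3
      simpa only [mul_smul] using e4
    rw [e2]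
    exact (mono_lt M _ l5).trans_le hB
  have ez : v1 • w1 • y = X1 • y := by rw [S.p1, mul_smul]
  have l7 : w1 • y < v1 • w1 • y := by rw [ez]; exact l3.trans l4
  have l8 : y < w1 ^ b • X1 ^ a • y := by
    rw [pow_succ', mul_assoc, mul_smul] at hC1
    have := (lt_iff M w1).mp (l3.trans hC1)
    rwa [mul_smul] at this
  have l9 : v1 ^ q • w1 • y < X1 ^ a • y := (lt_iff M (w1 ^ b)).mp (l6.trans l8)
  have l10 : ∀ j, j + 1 ≤ a → X1 ^ (j + 1) • y ≤ v1 ^ (j + 1) • w1 • y := by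
    intro j
    induction j with
    | zero => intro _; rw [zero_add, pow_one, pow_one, ez]
    | succ j ih =>
      intro hj
      have ih := ih (by omega)
      have h6 : w1 • v1 ^ (j + 1) • w1 • y ≤ v1 ^ (j + 1) • w1 • y := by
        by_contra h7
        rw [not_le] at h7
        have h8 := lt_pow M h7 hb
        have h9 : w1 ^ b • v1 ^ (j + 1) • w1 • y ≤ w1 ^ b • v1 ^ q • w1 • y :=
          M _ _ _ (pow_mono M l7.le (by omega))
        have h10 : y ≤ v1 ^ (j + 1) • w1 • y := (le_pow M l4.le _).trans ih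
        exact absurd (h8.trans_le (h9.trans l6.le)) (not_lt.mpr h10)
      rw [pow_succ', mul_smul, pow_succ' v1, mul_smul]
      calc X1 • X1 ^ (j + 1) • y ≤ X1 • v1 ^ (j + 1) • w1 • y := M _ _ _ ih
        _ = v1 • w1 • v1 ^ (j + 1) • w1 • y := by conv_lhs => rw [S.p1, mul_smul]
        _ ≤ v1 • v1 ^ (j + 1) • w1 • y := M _ _ _ h6
  obtain ⟨k, rfl⟩ : ∃ k, a = k + 1 := ⟨a - 1, by omega⟩
  exact absurd (l9.trans_le ((l10 k le_rfl).trans (pow_mono M l7.le hq))) (lt_irrefl _)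

/-- `w1` and `w2` do not both move `y` down. -/
theorem P_excl (S : Sys a q b X0 v0 w0 X1 v1 w1 X2 v2 w2) (ha : 0 < a) (hb : 0 < b)
    (hq : 2 * a ≤ q) {y : Ω} (P : Pos G a b X0 w0 X1 w1 X2 w2 y)
    (h1 : w1 • y ≤ y) (h2 : w2 • y ≤ y) : False := by
  obtain ⟨m, rfl⟩ : ∃ m, q = a + (m + 1) := ⟨q - a - 1, by omega⟩
  have x1 : y < X1 • y := X_pos M P.rot.c0' h1
  have x2 : y < X2 • y := X_pos M P.rot.rot.c0' h2
  have x0 : X0 • y < y := by
    have : X0 • X1 • X2 • y = y := by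
      rw [← mul_smul, ← mul_smul, S.prodX, one_smul]
    calc X0 • y < X0 • X1 • X2 • y := mono_lt M _ (x1.trans (mono_lt M _ x2))
      _ = y := this
  -- first inequality
  have i1 : y < X2 ^ a • X0 ^ (m + 1) • y := by
    have h3 : X2 • y < v2 • X2 • y := by
      have e : v2 • X2 • y = X2 • w2⁻¹ • X2 • y := by
        have : v2 = X2 * w2⁻¹ := by rw [S.p2]; group
        rw [this, mul_smul]
      rw [e]
      apply mono_lt M
      have h4 : y ≤ w2⁻¹ • y := by rw [le_inv M]; exact h2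
      exact h4.trans_lt (mono_lt M _ x2)
    have h4 : X2 • y < v2 ^ (a + (m + 1)) • X2 • y := lt_pow M h3 (by omega)
    have e0 : v0 ^ (a + (m + 1) + 1) =
        X0 ^ (a + 1) * ((X2 ^ (a + 1))⁻¹ * v2 ^ (a + (m + 1)) * X2) := by
      have := S.rot.rot.A0
      rw [← this]; group
    have h5 : v0 ^ (a + (m + 1) + 1) • y < X0 ^ (a + (m + 1) + 1) • y :=
      v_lt M S.p0 P.c0 x0.le _
    have e1 : a + (m + 1) + 1 = (a + 1) + (m + 1) := by omega
    have h5' : X0 ^ (a + 1) • ((X2 ^ (a + 1))⁻¹ * v2 ^ (a + (m + 1)) * X2) • y <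
        X0 ^ (a + 1) • X0 ^ (m + 1) • y := by
      rw [← mul_smul, ← e0, ← mul_smul, ← pow_add, ← e1]; exact h5
    have h6 := (lt_iff M _).mp h5'
    rw [mul_assoc, mul_smul, inv_lt M, mul_smul, pow_succ' X2, mul_smul] at h6
    exact (lt_iff M X2).mp (h4.trans h6)
  -- second inequality
  have i2 : y < X1 ^ a • X0 ^ m • y := by
    have h3 : y < (w0 ^ b * v0 ^ (a + (m + 1))) • y := B_excl M S ha hb (by omega) P
    have h4 : v0 ^ (a + m + 1) • y < X0 ^ (a + m + 1) • y := v_lt M S.p0 P.c0 x0.le _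
    have h5 : y < w0 ^ b • X0 ^ (a + m + 1) • y := by
      rw [mul_smul] at h3
      exact h3.trans (mono_lt M _ h4)
    have e1 : w0 ^ b • X0 ^ (a + m + 1) • y = w1 ^ (b + 1) • X1 ^ a • X0 ^ m • y := by
      have : w0 ^ b * X0 ^ (a + m + 1) = w1 ^ (b + 1) * X1 ^ a * X0 ^ m := by
        rw [S.C0, mul_assoc, ← pow_add]
        congr 2; omega
      rw [← mul_smul, this]
      simp only [mul_smul]
    rw [e1] at h5
    exact (lt_iff M _).mp ((pow_le M h1 (b + 1)).trans_lt h5)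
  have i3 : ∀ j ≤ m, X0 ^ j • y < X1 • X0 ^ j • y := by
    intro j hj
    by_contra h
    rw [not_lt] at h
    have h3 := pow_le M h a
    have h4 : X1 ^ a • X0 ^ m • y ≤ X1 ^ a • X0 ^ j • y := M _ _ _ (pow_anti M x0.le hj)
    exact absurd (i2.trans_le (h4.trans (h3.trans (pow_le M x0.le j)))) (lt_irrefl _)
  have i4 : ∀ j ≤ m + 1, X2 ^ j • X0 ^ j • y ≤ y := by
    intro j
    induction j with
    | zero => intro _; simp
    | succ j ih =>
      intro hj
      have ih := ih (by omega)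
      have e : X2 ^ (j + 1) • X0 ^ (j + 1) • y = X2 ^ j • X1⁻¹ • X0 ^ j • y := by
        rw [← S.X2X0, pow_succ X2, pow_succ' X0]
        simp only [mul_smul]
      rw [e]
      refine le_trans (M _ _ _ ?_) ih
      rw [inv_le M]
      exact (i3 j (by omega)).le
  have i5 : X2 ^ a • X0 ^ (m + 1) • y ≤ X2 ^ a • X0 ^ a • y :=
    M _ _ _ (pow_anti M x0.le (by omega))
  exact absurd (i1.trans_le (i5.trans (i4 a (by omega)))) (lt_irrefl _)

end

end Pool.Agent.L7h40.P3
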