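import Pool.Agent.L7h40.P3.Main

set_option autoImplicit false

/-!
# The symmetry that exchanges `a` and `b`
-/

namespace Pool.Agent.L7h40.P3

section
variable {G : Type*} [Group G] {a q b : ℕ} {X v w X' v' w' c c' : G}

/-- One step (`X', v', w'` is the stage before `X, v, w`). -/
theorem flip_step (p : X = v * w) (p' : X' = v' * w')
    (hA : (X ^ (a + 1))⁻¹ * v ^ (q + 1) = (X' ^ (a + 1))⁻¹ * v' ^ (q + 1) * w')
    (hB : w ^ b * v ^ q = w' ^ b * v' ^ q * X')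
    (hC : w ^ (b + 1) * X ^ a = w' ^ b * X' ^ (a + 1))
    (hc : c' = c * (X ^ a * (X' ^ (a + 1))⁻¹)) :
    ((c' * w' * c'⁻¹) ^ (b + 1))⁻¹ * (c' * v'⁻¹ * c'⁻¹) ^ (q + 1) =
      ((c * w * c⁻¹) ^ (b + 1))⁻¹ * (c * v⁻¹ * c⁻¹) ^ (q + 1) * (c * X * c⁻¹) ∧
    (c' * X' * c'⁻¹) ^ a * (c' * v'⁻¹ * c'⁻¹) ^ q =
      (c * X * c⁻¹) ^ a * (c * v⁻¹ * c⁻¹) ^ q * (c * w * c⁻¹) := by
  have hc2 : c' = c * ((w ^ (b + 1))⁻¹ * w' ^ b) := by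
    rw [hc]
    congr 1
    have h1 : X ^ a = (w ^ (b + 1))⁻¹ * (w' ^ b * X' ^ (a + 1)) := by rw [← hC]; group
    rw [h1]; group
  have hw : w = v⁻¹ * X := by rw [p]; group
  have hx' : X'⁻¹ = w'⁻¹ * v'⁻¹ := by rw [p']; group
  constructor
  · rw [conj_pow, conj_pow, conj_pow, conj_pow]
    -- the left side
    have e1 : (c' * w' ^ (b + 1) * c'⁻¹)⁻¹ * (c' * v'⁻¹ ^ (q + 1) * c'⁻¹) =
        c * (w ^ (b + 1))⁻¹ * (w' ^ b * (w' ^ (b + 1))⁻¹ * v'⁻¹ ^ (q + 1) * (w' ^ b)⁻¹) *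
          w ^ (b + 1) * c⁻¹ := by
      rw [hc2]; group
    have e2 : w' ^ b * (w' ^ (b + 1))⁻¹ * v'⁻¹ ^ (q + 1) * (w' ^ b)⁻¹ = (w ^ b * v ^ q)⁻¹ := by
      rw [hB, pow_succ w', pow_succ' v'⁻¹]
      calc w' ^ b * (w' ^ b * w')⁻¹ * (v'⁻¹ * v'⁻¹ ^ q) * (w' ^ b)⁻¹
          = w' ^ b * (w'⁻¹ * (w' ^ b)⁻¹) * (v'⁻¹ * v'⁻¹ ^ q) * (w' ^ b)⁻¹ := by group
        _ = (w'⁻¹ * v'⁻¹) * v'⁻¹ ^ q * (w' ^ b)⁻¹ := by
          have : w' ^ b * (w'⁻¹ * (w' ^ b)⁻¹) = w'⁻¹ := by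
            rw [← mul_assoc, (Commute.refl w').inv_right.pow_left b |>.eq]; group
          rw [this]; group
        _ = X'⁻¹ * (v' ^ q)⁻¹ * (w' ^ b)⁻¹ := by rw [← hx', inv_pow]
        _ = _ := by group
    rw [e1, e2]
    have e3 : (c * v⁻¹ ^ (q + 1) * c⁻¹) * (c * X * c⁻¹) = c * (v ^ q)⁻¹ * w * c⁻¹ := by
      rw [pow_succ, hw, inv_pow]; group
    calc c * (w ^ (b + 1))⁻¹ * (w ^ b * v ^ q)⁻¹ * w ^ (b + 1) * c⁻¹
        = c * (w ^ (b + 1))⁻¹ * c⁻¹ * (c * (v ^ q)⁻¹ * w * c⁻¹) := by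
          rw [pow_succ w]; group
      _ = (c * w ^ (b + 1) * c⁻¹)⁻¹ * ((c * v⁻¹ ^ (q + 1) * c⁻¹) * (c * X * c⁻¹)) := by
          rw [e3]; group
      _ = _ := by group
  · rw [conj_pow, conj_pow, conj_pow, conj_pow]
    have e1 : c' * X' ^ a * c'⁻¹ * (c' * v'⁻¹ ^ q * c'⁻¹) =
        c * X ^ a * ((X' ^ (a + 1))⁻¹ * X' ^ a * v'⁻¹ ^ q * X' ^ (a + 1)) * (X ^ a)⁻¹ * c⁻¹ := by
      rw [hc]; group
    have e2 : (X' ^ (a + 1))⁻¹ * X' ^ a * v'⁻¹ ^ q * X' ^ (a + 1) =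
        ((X ^ (a + 1))⁻¹ * v ^ (q + 1))⁻¹ := by
      rw [hA]
      have h1 : v' ^ (q + 1) * w' = v' ^ q * X' := by rw [p', pow_succ, mul_assoc]
      rw [mul_assoc (X' ^ (a + 1))⁻¹ (v' ^ (q + 1)) w', h1, inv_pow, pow_succ' X']
      group
    rw [e1, e2, hw, inv_pow, pow_succ v, pow_succ X]
    group

end

section
variable {G : Type*} [Group G] {a q b : ℕ} {X0 v0 w0 X1 v1 w1 X2 v2 w2 : G}

/-- The conjugators. -/
theorem Sys.flip (S : Sys a q b X0 v0 w0 X1 v1 w1 X2 v2 w2) :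
    ∃ c1 c0 : G, c1 = X2 ^ a * (X1 ^ (a + 1))⁻¹ ∧ c0 = c1 * (X1 ^ a * (X0 ^ (a + 1))⁻¹) ∧
    Sys b q a w2 v2⁻¹ X2 (c1 * w1 * c1⁻¹) (c1 * v1⁻¹ * c1⁻¹) (c1 * X1 * c1⁻¹)
      (c0 * w0 * c0⁻¹) (c0 * v0⁻¹ * c0⁻¹) (c0 * X0 * c0⁻¹) := by
  refine ⟨_, _, rfl, rfl, ?_⟩
  set c1 := X2 ^ a * (X1 ^ (a + 1))⁻¹ with hc1
  set c0 := c1 * (X1 ^ a * (X0 ^ (a + 1))⁻¹) with hc0
  have s1 := flip_step (c := 1) (c' := c1) S.p2 S.p1 S.a1 S.b1 S.rot.C0 (by rw [hc1, one_mul])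
  have s2 := flip_step (c := c1) (c' := c0) S.p1 S.p0 S.a0 S.b0 S.C0 hc0
  have e : (1 : G) = c0 * (X0 ^ a * (X2 ^ (a + 1))⁻¹) := by
    rw [hc0, hc1]
    have h := S.rot.rot.X1X2
    -- `X0 * X1 = X2⁻¹`
    calc (1 : G) = X2 ^ a * X2 * (X2 ^ (a + 1))⁻¹ := by rw [← pow_succ]; group
      _ = X2 ^ a * (X0 * X1)⁻¹ * (X2 ^ (a + 1))⁻¹ := by rw [h]; group
      _ = _ := by rw [pow_succ X1, pow_succ X0]; group
  have s3 := flip_step (c := c0) (c' := 1) S.p0 S.p2 S.a2 S.b2 S.rot.rot.C0 e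
  simp only [one_mul, inv_one, mul_one] at s1 s3
  refine ⟨by rw [S.p2]; group, by rw [S.p1]; group, by rw [S.p0]; group,
    s1.1, s2.1, s3.1, s1.2, s2.2, s3.2⟩

end

section
variable {G Ω : Type*} [Group G] [CompleteLinearOrder Ω] [MulAction G Ω] (M : Mono G Ω)
  {a q b : ℕ} {X0 v0 w0 X1 v1 w1 X2 v2 w2 : G}
include M

/-- **Every point is fixed.** -/
theorem all_fixed' (S : Sys a q b X0 v0 w0 X1 v1 w1 X2 v2 w2) (ha : 0 < a) (hb : 0 < b)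
    (hq : 2 * min a b ≤ q) (hgen : ∀ K : Subgroup G, X0 ∈ K →
      v0 ∈ K → X1 ∈ K → v1 ∈ K → X2 ∈ K → v2 ∈ K → K = ⊤) (y : Ω) : Fix G y := by
  rcases le_total a b with hab | hab
  · rw [min_eq_left hab] at hq
    exact all_fixed M S ha hb hq (by omega) hgen y
  · rw [min_eq_right hab] at hq
    obtain ⟨c1, c0, h1, h0, S'⟩ := S.flip
    refine all_fixed M S' hb ha hq (by omega) ?_ y
    intro K k2 l2 k1 l1 k0 l0
    have m2 : v2 ∈ K := inv_mem_iff.mp l2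
    have n2 : X2 ∈ K := by rw [S.p2]; exact mul_mem m2 k2
    have hpow : (X2 ^ a) ∈ K := pow_mem n2 a
    -- stage 1
    have conj_of : ∀ {c g : G}, c * g * c⁻¹ ∈ K → c ∈ K → g ∈ K := by
      intro c g h hc
      have : g = c⁻¹ * (c * g * c⁻¹) * c := by group
      rw [this]; exact mul_mem (mul_mem (inv_mem hc) h) hc
    have x1' : c1 * X1 * c1⁻¹ ∈ K := by
      have := S'.p1
      have e : c1 * X1 * c1⁻¹ = (c1 * v1⁻¹ * c1⁻¹)⁻¹ * (c1 * w1 * c1⁻¹) := by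
        rw [S.p1]; group
      rw [e]; exact mul_mem (inv_mem l1) k1
    have n1 : X1 ∈ K := by
      have e : c1 * X1 * c1⁻¹ = X2 ^ a * X1 * (X2 ^ a)⁻¹ := by
        rw [h1, pow_succ X1]; group
      rw [e] at x1'
      exact conj_of x1' hpow
    have hc1 : c1 ∈ K := by rw [h1]; exact mul_mem hpow (inv_mem (pow_mem n1 _))
    have m1 : v1 ∈ K := inv_mem_iff.mp (conj_of l1 hc1)
    have x0' : c0 * X0 * c0⁻¹ ∈ K := by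
      have e : c0 * X0 * c0⁻¹ = (c0 * v0⁻¹ * c0⁻¹)⁻¹ * (c0 * w0 * c0⁻¹) := by
        rw [S.p0]; group
      rw [e]; exact mul_mem (inv_mem l0) k0
    have n0 : X0 ∈ K := by
      have e : c0 * X0 * c0⁻¹ = (c1 * X1 ^ a) * X0 * (c1 * X1 ^ a)⁻¹ := by
        rw [h0, pow_succ X0]; group
      rw [e] at x0'
      exact conj_of x0' (mul_mem hc1 (pow_mem n1 a))
    have hc0 : c0 ∈ K := by
      rw [h0]; exact mul_mem hc1 (mul_mem (pow_mem n1 a) (inv_mem (pow_mem n0 _)))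
    have m0 : v0 ∈ K := inv_mem_iff.mp (conj_of l0 hc0)
    exact hgen K n0 m0 n1 m1 n2 m2

end

end Pool.Agent.L7h40.P3
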