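import Pool.Agent.L7h40.P3.Flip
import Pool.Agent.TH821.HexGroup

set_option autoImplicit false

/-!
# The group of the threefold cyclic branched cover
-/

namespace Pool.Agent.L7h40.P3

open Pool.Agent.W705.Borr Pool.Agent.TH821.Chain Pool.Agent.TH821.Hex Pool.Agent.TH821.Cyc

variable {G : Type*} [Group G]

/-- Homomorphisms from the kernel of `d` to a left-ordered group are trivial. -/
theorem hom_trivial {s X V : G} (hs : s ^ 3 = 1)
    (hgen : ∀ K : Subgroup G, s ∈ K → X ∈ K → V ∈ K → K = ⊤)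
    (d : G →* Multiplicative (ZMod 3)) (ds : d s = Multiplicative.ofAdd 1) (dX : d X = 1)
    (dV : d V = 1) {a q b : ℕ} (ha : 0 < a) (hb : 0 < b) (hq : 2 * min a b ≤ q)
    (A : s * (X ^ (a + 1) * V ^ (q + 1)) * s⁻¹ = X ^ (a + 1) * V ^ (q + 1) * (X * V)⁻¹)
    (B : s * ((V ^ q)⁻¹ * ((X * V)⁻¹ ^ b)⁻¹) * s⁻¹ = X * ((V ^ q)⁻¹ * ((X * V)⁻¹ ^ b)⁻¹))
    {H : Type*} [Group H] [LinearOrder H] (hinv : ∀ a b c : H, a ≤ b ↔ c * a ≤ c * b)
    (φ : d.ker →* H) (g : d.ker) : φ g = 1 := by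
  have hn : 0 < 3 := by norm_num
  set X' : d.ker := ⟨X, dX⟩ with hX'
  set V' : d.ker := ⟨V, dV⟩ with hV'
  set W' : d.ker := (X' * V')⁻¹ with hW'
  have key : ∀ (i : ZMod 3) (x y : d.ker), s * x.1 * s⁻¹ = y.1 →
      ck d s (i + 1) x = ck d s i y := by
    intro i x y hxy
    apply Subtype.ext
    show cj s x.1 (i + 1) = cj s y.1 i
    rw [cj_shift hn hs, hxy]
  set x : ZMod 3 → d.ker := fun i => ck d s i X' with hx
  set v : ZMod 3 → d.ker := fun i => ck d s i V' with hv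
  set w : ZMod 3 → d.ker := fun i => ck d s i W' with hw
  have hp : ∀ i, (x i)⁻¹ = v i * w i := by
    intro i
    show (ck d s i X')⁻¹ = ck d s i V' * ck d s i W'
    rw [← map_mul, ← map_inv, hW']
    congr 1
    group
  have hA : ∀ i, ((x (i + 1))⁻¹ ^ (a + 1))⁻¹ * v (i + 1) ^ (q + 1) =
      ((x i)⁻¹ ^ (a + 1))⁻¹ * v i ^ (q + 1) * w i := by
    intro i
    have := key i (X' ^ (a + 1) * V' ^ (q + 1)) (X' ^ (a + 1) * V' ^ (q + 1) * W') A
    rw [inv_pow, inv_inv, inv_pow, inv_inv]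
    simpa only [map_mul, map_inv, map_pow] using this
  have hB : ∀ i, w (i + 1) ^ b * v (i + 1) ^ q = w i ^ b * v i ^ q * (x i)⁻¹ := by
    intro i
    have := key i ((V' ^ q)⁻¹ * (W' ^ b)⁻¹) (X' * ((V' ^ q)⁻¹ * (W' ^ b)⁻¹)) B
    simp only [map_mul, map_inv, map_pow] at this
    have h2 := congrArg (fun t : d.ker => t⁻¹) this
    simpa only [mul_inv_rev, inv_inv] using h2
  have S : Sys a q b (x 0)⁻¹ (v 0) (w 0) (x 1)⁻¹ (v 1) (w 1) (x 2)⁻¹ (v 2) (w 2) := by
    refine ⟨hp 0, hp 1, hp 2, hA 0, hA 1, hA 2, hB 0, hB 1, hB 2⟩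
  let _ : MulAction d.ker (LowerSet H) :=
    { smul := fun g y => act hinv (φ g) y
      one_smul := fun y => by show act hinv (φ 1) y = y; rw [map_one]; exact act_one hinv y
      mul_smul := fun g h y => by
        show act hinv (φ (g * h)) y = act hinv (φ g) (act hinv (φ h) y)
        rw [map_mul]; exact act_mul hinv _ _ _ }
  have M : Mono d.ker (LowerSet H) := fun g u v h => (act hinv (φ g)).le_iff_le.mpr h
  have gen : ∀ K : Subgroup d.ker, (x 0)⁻¹ ∈ K → v 0 ∈ K → (x 1)⁻¹ ∈ K → v 1 ∈ K →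
      (x 2)⁻¹ ∈ K → v 2 ∈ K → K = ⊤ := by
    intro K h0 k0 h1 k1 h2 k2
    have hxK : ∀ i, x i ∈ K := by
      intro i
      fin_cases i
      · exact inv_mem_iff.mp h0
      · exact inv_mem_iff.mp h1
      · exact inv_mem_iff.mp h2
    have hvK : ∀ i, v i ∈ K := by
      intro i
      fin_cases i
      · exact k0
      · exact k1
      · exact k2
    have h3 : N 3 s X V ≤ K.map d.ker.subtype := by
      unfold N
      rw [Subgroup.closure_le]
      rintro _ (⟨i, rfl⟩ | ⟨i, rfl⟩)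
      · exact ⟨x i, hxK i, rfl⟩
      · exact ⟨v i, hvK i, rfl⟩
    rw [eq_top_iff]
    intro g _
    obtain ⟨g', hg', hgg⟩ := h3 (ker_le hn hs hgen d ds dX dV g.2)
    have : g' = g := Subtype.ext hgg
    rw [← this]; exact hg'
  apply eq_one_of_act hinv
  intro y
  exact all_fixed' M S ha hb hq gen y g

end Pool.Agent.L7h40.P3
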