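import Pool.Agent.L7h40.P3.Sign

set_option autoImplicit false

/-!
# Threefold chains of order automorphisms of a complete linear order are trivial
-/

namespace Pool.Agent.L7h40.P3

section comp
variable {G Ω : Type*} [Group G] [CompleteLinearOrder Ω] [MulAction G Ω]

/-- `p` is fixed by the whole group. -/
def Fix (G : Type*) {Ω : Type*} [Group G] [LinearOrder Ω] [MulAction G Ω] (p : Ω) : Prop :=
  ∀ g : G, g • p = p

/-- `p` and `y` are in the same component of the complement of the fixed points (or `y` is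
fixed). -/
def Same (G : Type*) {Ω : Type*} [Group G] [LinearOrder Ω] [MulAction G Ω] (p y : Ω) : Prop :=
  ∀ s : Ω, Fix G s → (s < p ↔ s < y) ∧ (p < s ↔ y < s)

theorem Same.refl (y : Ω) : Same G y y := fun _ _ => ⟨Iff.rfl, Iff.rfl⟩

theorem Same.smul (M : Mono G Ω) {p y : Ω} (h : Same G p y) (g : G) : Same G (g • p) y := by
  intro s hs
  have h1 := h s hs
  have h2 : g • s = s := hs g
  constructor
  · rw [← h1.1]
    conv_lhs => rw [← h2]
    exact lt_iff M g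
  · rw [← h1.2]
    conv_lhs => rw [← h2]
    exact lt_iff M g

theorem Same.between {p r u y : Ω} (h1 : Same G p y) (h2 : Same G r y) (pu : p ≤ u)
    (ur : u ≤ r) : Same G u y := by
  intro s hs
  have k1 := h1 s hs
  have k2 := h2 s hs
  exact ⟨⟨fun h => k2.1.mp (h.trans_le ur), fun h => (k1.1.mpr h).trans_le pu⟩,
    ⟨fun h => k1.2.mp (pu.trans_lt h), fun h => ur.trans_lt (k2.2.mpr h)⟩⟩

theorem Same.not_fix {p y : Ω} (h : Same G p y) (hy : ¬ Fix G y) : ¬ Fix G p := by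
  intro hp
  have h1 := h p hp
  have h2 : ¬ p < y := fun h3 => lt_irrefl p (h1.1.mpr h3)
  have h3 : ¬ y < p := fun h3 => lt_irrefl p (h1.2.mpr h3)
  have h4 : p = y := le_antisymm (not_lt.mp h3) (not_lt.mp h2)
  exact hy (h4 ▸ hp)

theorem ivt (M : Mono G Ω) (g : G) {u r : Ω} (h : u ≤ r) (h1 : g • u ≤ u) (h2 : r ≤ g • r) :
    ∃ t, u ≤ t ∧ t ≤ r ∧ g • t = t := by
  set A : Set Ω := {x | x ≤ r ∧ g • x ≤ x} with hA
  have hu : u ∈ A := ⟨h, h1⟩
  set t := sSup A with ht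
  have htr : t ≤ r := sSup_le fun x hx => hx.1
  have hgt : g • t ≤ t := by
    rw [← le_inv M]
    exact sSup_le fun x hx => (le_inv M).mpr (hx.2.trans (le_sSup hx))
  refine ⟨t, le_sSup hu, htr, le_antisymm hgt ?_⟩
  by_contra h3
  rw [not_le] at h3
  have h4 : t < g⁻¹ • t := (lt_inv M).mpr h3
  have h5 : g⁻¹ • t ≤ r := by
    by_contra h6
    rw [not_le, lt_inv M] at h6
    exact absurd (h2.trans_lt h6) (not_lt.mpr htr)
  have h6 : g⁻¹ • t ∈ A := ⟨h5, by rw [smul_inv_smul]; exact h4.le⟩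
  exact absurd (le_sSup h6) (not_le.mpr h4)

theorem ivt' (M : Mono G Ω) (g : G) {u r : Ω} (h : u ≤ r) (h1 : u ≤ g • u) (h2 : g • r ≤ r) :
    ∃ t, u ≤ t ∧ t ≤ r ∧ g • t = t := by
  obtain ⟨t, t1, t2, t3⟩ := ivt M g⁻¹ h ((inv_le M).mpr h1) ((le_inv M).mpr h2)
  refine ⟨t, t1, t2, ?_⟩
  conv_lhs => rw [← t3]
  rw [smul_inv_smul]

end comp

section main
variable {G Ω : Type*} [Group G] [CompleteLinearOrder Ω] [MulAction G Ω] (M : Mono G Ω)
  {a q b : ℕ} {X0 v0 w0 X1 v1 w1 X2 v2 w2 : G}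
include M

theorem sign_cases (S : Sys a q b X0 v0 w0 X1 v1 w1 X2 v2 w2) (ha : 0 < a) (hb : 0 < b)
    (hq : a ≤ q) (hgen : ∀ K : Subgroup G, X0 ∈ K → v0 ∈ K → X1 ∈ K → v1 ∈ K → X2 ∈ K →
      v2 ∈ K → K = ⊤) {p : Ω} (hp : ¬ Fix G p) :
    (p < (w0 ^ (b + 1) * X0 ^ a) • p ∧ p < (w1 ^ (b + 1) * X1 ^ a) • p ∧
      p < (w2 ^ (b + 1) * X2 ^ a) • p) ∨
    ((w0 ^ (b + 1) * X0 ^ a) • p < p ∧ (w1 ^ (b + 1) * X1 ^ a) • p < p ∧
      (w2 ^ (b + 1) * X2 ^ a) • p < p) := by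
  rcases signs M S ha hb hq p with h | h | h
  · exact Or.inl h
  · exact Or.inr h
  · exfalso
    have hK := hgen (MulAction.stabilizer G p) h.1.1 h.1.2 h.2.1.1 h.2.1.2 h.2.2.1 h.2.2.2
    apply hp
    intro g
    have : g ∈ MulAction.stabilizer G p := by rw [hK]; trivial
    exact this

theorem pos_all (S : Sys a q b X0 v0 w0 X1 v1 w1 X2 v2 w2) (ha : 0 < a) (hb : 0 < b)
    (hq : a ≤ q) (hgen : ∀ K : Subgroup G, X0 ∈ K → v0 ∈ K → X1 ∈ K → v1 ∈ K → X2 ∈ K →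
      v2 ∈ K → K = ⊤) {y : Ω} (hy : ¬ Fix G y) (h : y < (w0 ^ (b + 1) * X0 ^ a) • y) {p : Ω}
    (hp : Same G p y) : Pos G a b X0 w0 X1 w1 X2 w2 p := by
  have key : ∀ p, Same G p y → p < (w0 ^ (b + 1) * X0 ^ a) • p := by
    intro p hp
    rcases sign_cases M S ha hb hq hgen (hp.not_fix hy) with h1 | h1
    · exact h1.1
    · exfalso
      have h2 : ∃ t, Same G t y ∧ (w0 ^ (b + 1) * X0 ^ a) • t = t := by
        rcases le_total y p with h3 | h3
        · obtain ⟨t, t1, t2, t3⟩ := ivt' M (w0 ^ (b + 1) * X0 ^ a) h3 h.le h1.1.le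
          exact ⟨t, (Same.refl y).between hp t1 t2, t3⟩
        · obtain ⟨t, t1, t2, t3⟩ := ivt M (w0 ^ (b + 1) * X0 ^ a) h3 h1.1.le h.le
          exact ⟨t, hp.between (Same.refl y) t1 t2, t3⟩
      obtain ⟨t, t1, t2⟩ := h2
      rcases sign_cases M S ha hb hq hgen (t1.not_fix hy) with h3 | h3
      · exact absurd t2 h3.1.ne'
      · exact absurd t2 h3.1.ne
  have key3 : ∀ p, Same G p y → (p < (w0 ^ (b + 1) * X0 ^ a) • p ∧
      p < (w1 ^ (b + 1) * X1 ^ a) • p ∧ p < (w2 ^ (b + 1) * X2 ^ a) • p) := by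
    intro p hp
    rcases sign_cases M S ha hb hq hgen (hp.not_fix hy) with h1 | h1
    · exact h1
    · exact absurd (key p hp) (not_lt.mpr h1.1.le)
  exact ⟨fun g => (key3 _ (hp.smul M g)).1, fun g => (key3 _ (hp.smul M g)).2.1,
    fun g => (key3 _ (hp.smul M g)).2.2⟩

theorem last (S : Sys a q b X0 v0 w0 X1 v1 w1 X2 v2 w2) (ha : 0 < a) (hb : 0 < b)
    (hq : 2 * a ≤ q) (hq' : a + 1 ≤ q) {y : Ω}
    (hP : ∀ p, Same G p y → Pos G a b X0 w0 X1 w1 X2 w2 p) : y < w2 • y := by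
  by_contra h
  rw [not_lt] at h
  have neg : ∀ u, Same G u y → y ≤ u → w2 • u < u := by
    intro u hu hyu
    by_contra h1
    rw [not_lt] at h1
    obtain ⟨t, t1, t2, t3⟩ := ivt M w2 hyu h h1
    have ht : Same G t y := (Same.refl y).between hu t1 t2
    have k1 : t < w1 • t := by
      by_contra h2
      exact P_excl M S ha hb hq (hP t ht) (not_lt.mp h2) t3.le
    have k0 : t < w0 • t := by
      by_contra h2
      exact P_excl M S.rot ha hb hq (hP t ht).rot t3.le (not_lt.mp h2)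
    have e : w0 • w1 • w2 • t = t := by rw [← mul_smul, ← mul_smul, S.prodw, one_smul]
    rw [t3] at e
    exact absurd e (k0.trans (mono_lt M w0 k1)).ne'
  have Py := hP y (Same.refl y)
  have hX : y < X2 • y := X_pos M Py.rot.rot.c0' h
  have key : ∀ j : ℕ, X2 ^ j • y ≤ v2 ^ j • y := by
    intro j
    induction j with
    | zero => simp
    | succ j ih =>
      have h1 := neg (X2 ^ j • y) ((Same.refl y).smul M _) (le_pow M hX.le j)
      calc X2 ^ (j + 1) • y = v2 • w2 • X2 ^ j • y := by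
            rw [pow_succ', mul_smul]
            conv_lhs => rw [S.p2, mul_smul, ← S.p2]
        _ ≤ v2 • X2 ^ j • y := M _ _ _ h1.le
        _ ≤ v2 • v2 ^ j • y := M _ _ _ ih
        _ = v2 ^ (j + 1) • y := by rw [pow_succ', mul_smul]
  have h1 := S_excl M S.rot.rot ha hq' Py.rot.rot
  have h2 := pow_mono M hX.le (show a + 1 ≤ q + 1 by omega)
  exact absurd (h1.trans_le (h2.trans (key (q + 1)))) (lt_irrefl _)

theorem no_up (S : Sys a q b X0 v0 w0 X1 v1 w1 X2 v2 w2) (ha : 0 < a) (hb : 0 < b)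
    (hq : 2 * a ≤ q) (hq' : a + 1 ≤ q) (hgen : ∀ K : Subgroup G, X0 ∈ K → v0 ∈ K → X1 ∈ K →
      v1 ∈ K → X2 ∈ K → v2 ∈ K → K = ⊤) {y : Ω} (hy : ¬ Fix G y)
    (h : y < (w0 ^ (b + 1) * X0 ^ a) • y) : False := by
  have hP : ∀ p, Same G p y → Pos G a b X0 w0 X1 w1 X2 w2 p :=
    fun p hp => pos_all M S ha hb (by omega) hgen hy h hp
  have k2 := last M S ha hb hq hq' hP
  have k0 := last M S.rot ha hb hq hq' (fun p hp => (hP p hp).rot)
  have k1 := last M S.rot.rot ha hb hq hq' (fun p hp => (hP p hp).rot.rot)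
  have e : w0 • w1 • w2 • y = y := by rw [← mul_smul, ← mul_smul, S.prodw, one_smul]
  have h1 : y < w0 • w1 • w2 • y := by
    refine k0.trans (mono_lt M w0 ?_)
    exact k1.trans (mono_lt M w1 k2)
  exact absurd e h1.ne'

/-- **Every point is fixed.** -/
theorem all_fixed (S : Sys a q b X0 v0 w0 X1 v1 w1 X2 v2 w2) (ha : 0 < a) (hb : 0 < b)
    (hq : 2 * a ≤ q) (hq' : a + 1 ≤ q) (hgen : ∀ K : Subgroup G, X0 ∈ K → v0 ∈ K → X1 ∈ K →
      v1 ∈ K → X2 ∈ K → v2 ∈ K → K = ⊤) (y : Ω) : Fix G y := by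
  by_contra hy
  rcases sign_cases M S ha hb (by omega) hgen hy with h | h
  · exact no_up M S ha hb hq hq' hgen hy h.1
  · exact no_up (Ω := Ωᵒᵈ) M.dual S ha hb hq hq' hgen (y := OrderDual.toDual y) hy h.1

end main

end Pool.Agent.L7h40.P3
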