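import Mathlib

set_option autoImplicit false

/-!
# Threefold chains of order automorphisms: statements at one point

A group `G` acts on a linear order by order automorphisms.  Stage `i` (`i` modulo 3) has elements
`X, v, w` with `X = v w`, `A = X^(-(a+1)) v^(q+1)`, `B = w^b v^q`, `C = w^(b+1) X^a = B A⁻¹`; the
relations are `A' = A w`, `B' = B X`, hence `C' = w^b X^(a+1)`.
-/

namespace Pool.Agent.L7h40.P3

/-- The action is by order automorphisms. -/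
def Mono (G Ω : Type*) [Group G] [LinearOrder Ω] [MulAction G Ω] : Prop :=
  ∀ (g : G) (u v : Ω), u ≤ v → g • u ≤ g • v

section basic
variable {G Ω : Type*} [Group G] [LinearOrder Ω] [MulAction G Ω] (M : Mono G Ω)
include M

theorem le_iff (g : G) {u v : Ω} : g • u ≤ g • v ↔ u ≤ v := by
  constructor
  · intro h
    have := M g⁻¹ _ _ h
    rwa [inv_smul_smul, inv_smul_smul] at this
  · exact M g _ _

theorem lt_iff (g : G) {u v : Ω} : g • u < g • v ↔ u < v := by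
  rw [← not_le, ← not_le, le_iff M]

theorem mono_lt (g : G) {u v : Ω} (h : u < v) : g • u < g • v := (lt_iff M g).mpr h

theorem mono_le (g : G) {u v : Ω} (h : u ≤ v) : g • u ≤ g • v := (le_iff M g).mpr h

theorem pow_le {g : G} {y : Ω} (h : g • y ≤ y) (n : ℕ) : g ^ n • y ≤ y := by
  induction n with
  | zero => simp
  | succ n ih => rw [pow_succ, mul_smul]; exact (M _ _ _ h).trans ih

theorem le_pow {g : G} {y : Ω} (h : y ≤ g • y) (n : ℕ) : y ≤ g ^ n • y := by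
  induction n with
  | zero => simp
  | succ n ih => rw [pow_succ, mul_smul]; exact ih.trans (M _ _ _ h)

theorem pow_lt {g : G} {y : Ω} (h : g • y < y) {n : ℕ} (hn : 0 < n) : g ^ n • y < y := by
  obtain ⟨n, rfl⟩ := Nat.exists_eq_add_of_le' hn
  rw [pow_succ, mul_smul]
  exact (mono_lt M _ h).trans_le (pow_le M h.le n)

theorem lt_pow {g : G} {y : Ω} (h : y < g • y) {n : ℕ} (hn : 0 < n) : y < g ^ n • y := by
  obtain ⟨n, rfl⟩ := Nat.exists_eq_add_of_le' hn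
  rw [pow_succ, mul_smul]
  exact (le_pow M h.le n).trans_lt (mono_lt M _ h)

theorem pow_anti {g : G} {y : Ω} (h : g • y ≤ y) {m n : ℕ} (hmn : m ≤ n) :
    g ^ n • y ≤ g ^ m • y := by
  obtain ⟨k, rfl⟩ := Nat.exists_eq_add_of_le hmn
  rw [pow_add, mul_smul]
  exact M _ _ _ (pow_le M h k)

theorem pow_mono {g : G} {y : Ω} (h : y ≤ g • y) {m n : ℕ} (hmn : m ≤ n) :
    g ^ m • y ≤ g ^ n • y := by
  obtain ⟨k, rfl⟩ := Nat.exists_eq_add_of_le hmn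
  rw [pow_add, mul_smul]
  exact M _ _ _ (le_pow M h k)

theorem le_of_pow {g : G} {y : Ω} {n : ℕ} (hn : 0 < n) (h : g ^ n • y ≤ y) : g • y ≤ y := by
  by_contra h1
  exact absurd h (not_le.mpr (lt_pow M (not_le.mp h1) hn))

theorem inv_lt {g : G} {u v : Ω} : g⁻¹ • u < v ↔ u < g • v := by
  rw [← lt_iff M g, smul_inv_smul]

theorem lt_inv {g : G} {u v : Ω} : u < g⁻¹ • v ↔ g • u < v := by
  rw [← lt_iff M g, smul_inv_smul]

theorem le_inv {g : G} {u v : Ω} : u ≤ g⁻¹ • v ↔ g • u ≤ v := by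
  rw [← le_iff M g, smul_inv_smul]

theorem inv_le {g : G} {u v : Ω} : g⁻¹ • u ≤ v ↔ u ≤ g • v := by
  rw [← le_iff M g, smul_inv_smul]

/-- Rule 1. -/
theorem w_pos {X w : G} {a b : ℕ} {y : Ω} (hC : y < (w ^ (b + 1) * X ^ a) • y)
    (hX : X • y ≤ y) : y < w • y := by
  by_contra h
  rw [not_lt] at h
  rw [mul_smul] at hC
  exact absurd hC (not_lt.mpr (((M _ _ _ (pow_le M hX a)).trans (pow_le M h (b + 1)))))

theorem X_pos {X w : G} {a b : ℕ} {y : Ω} (hC : y < (w ^ (b + 1) * X ^ a) • y)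
    (hw : w • y ≤ y) : y < X • y := by
  by_contra h
  exact absurd (w_pos M hC (not_lt.mp h)) (not_lt.mpr hw)

/-- Rule 2. -/
theorem v_lt {X v w : G} {a b : ℕ} (hp : X = v * w) {y : Ω}
    (hC : ∀ g : G, g • y < (w ^ (b + 1) * X ^ a) • g • y) (hX : X • y ≤ y) (j : ℕ) :
    v ^ (j + 1) • y < X ^ (j + 1) • y := by
  have hw : ∀ j : ℕ, X ^ j • y < w • X ^ j • y := by
    intro j
    apply w_pos M (hC (X ^ j))
    rw [← mul_smul, ← pow_succ']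
    exact pow_anti M hX (Nat.le_succ j)
  induction j with
  | zero =>
    rw [zero_add, pow_one, pow_one]
    have := hw 0
    rw [pow_zero, one_smul] at this
    conv_rhs => rw [hp, mul_smul]
    exact mono_lt M v this
  | succ j ih =>
    rw [pow_succ', mul_smul, pow_succ' X, mul_smul]
    conv_rhs => rw [hp, mul_smul, ← hp]
    exact (mono_lt M v ih).trans (mono_lt M v (hw (j + 1)))

end basic

section alg
variable {G : Type*} [Group G]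

/-- The relations of the threefold chain. -/
structure Sys (a q b : ℕ) (X0 v0 w0 X1 v1 w1 X2 v2 w2 : G) : Prop where
  p0 : X0 = v0 * w0
  p1 : X1 = v1 * w1
  p2 : X2 = v2 * w2
  a0 : (X1 ^ (a + 1))⁻¹ * v1 ^ (q + 1) = (X0 ^ (a + 1))⁻¹ * v0 ^ (q + 1) * w0
  a1 : (X2 ^ (a + 1))⁻¹ * v2 ^ (q + 1) = (X1 ^ (a + 1))⁻¹ * v1 ^ (q + 1) * w1
  a2 : (X0 ^ (a + 1))⁻¹ * v0 ^ (q + 1) = (X2 ^ (a + 1))⁻¹ * v2 ^ (q + 1) * w2
  b0 : w1 ^ b * v1 ^ q = w0 ^ b * v0 ^ q * X0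
  b1 : w2 ^ b * v2 ^ q = w1 ^ b * v1 ^ q * X1
  b2 : w0 ^ b * v0 ^ q = w2 ^ b * v2 ^ q * X2

variable {a q b : ℕ} {X0 v0 w0 X1 v1 w1 X2 v2 w2 : G}

theorem Sys.rot (S : Sys a q b X0 v0 w0 X1 v1 w1 X2 v2 w2) :
    Sys a q b X1 v1 w1 X2 v2 w2 X0 v0 w0 :=
  ⟨S.p1, S.p2, S.p0, S.a1, S.a2, S.a0, S.b1, S.b2, S.b0⟩

theorem Sys.prodw (S : Sys a q b X0 v0 w0 X1 v1 w1 X2 v2 w2) : w0 * w1 * w2 = 1 := by
  have h := S.a2
  rw [S.a1, S.a0] at h
  have h2 : (X0 ^ (a + 1))⁻¹ * v0 ^ (q + 1) * (w0 * w1 * w2) =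
      (X0 ^ (a + 1))⁻¹ * v0 ^ (q + 1) := by
    simp only [mul_assoc] at h ⊢
    exact h.symm
  exact mul_eq_left.mp h2

theorem Sys.prodX (S : Sys a q b X0 v0 w0 X1 v1 w1 X2 v2 w2) : X0 * X1 * X2 = 1 := by
  have h := S.b2
  rw [S.b1, S.b0] at h
  have h2 : w0 ^ b * v0 ^ q * (X0 * X1 * X2) = w0 ^ b * v0 ^ q := by
    simp only [mul_assoc] at h ⊢
    exact h.symm
  exact mul_eq_left.mp h2

/-- the late form of `C`. -/
theorem Sys.C0 (S : Sys a q b X0 v0 w0 X1 v1 w1 X2 v2 w2) :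
    w1 ^ (b + 1) * X1 ^ a = w0 ^ b * X0 ^ (a + 1) := by
  have hw1 : w1 = v1⁻¹ * X1 := by rw [S.p1]; group
  have hw0 : w0 = v0⁻¹ * X0 := by rw [S.p0]; group
  have h1 : w1 ^ (b + 1) * X1 ^ a =
      (w1 ^ b * v1 ^ q) * ((X1 ^ (a + 1))⁻¹ * v1 ^ (q + 1))⁻¹ := by
    have : w1 ^ (b + 1) * X1 ^ a = w1 ^ b * (v1⁻¹ * X1) * X1 ^ a := by
      rw [← hw1, pow_succ]
    rw [this, pow_succ' X1, pow_succ v1]
    group
  rw [h1, S.b0, S.a0]
  have h2 : X0 * w0⁻¹ = v0 := by rw [S.p0]; group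
  calc w0 ^ b * v0 ^ q * X0 * ((X0 ^ (a + 1))⁻¹ * v0 ^ (q + 1) * w0)⁻¹
      = w0 ^ b * v0 ^ q * (X0 * w0⁻¹) * (v0 ^ (q + 1))⁻¹ * X0 ^ (a + 1) := by group
    _ = w0 ^ b * v0 ^ q * v0 * (v0 ^ (q + 1))⁻¹ * X0 ^ (a + 1) := by rw [h2]
    _ = w0 ^ b * X0 ^ (a + 1) := by rw [pow_succ v0]; group

/-- the late form of `A`. -/
theorem Sys.A0 (S : Sys a q b X0 v0 w0 X1 v1 w1 X2 v2 w2) :
    (X1 ^ (a + 1))⁻¹ * v1 ^ (q + 1) = (X0 ^ (a + 1))⁻¹ * v0 ^ q * X0 := by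
  rw [S.a0]
  simp only [pow_succ v0, mul_assoc]
  rw [← S.p0]

theorem Sys.v1w0 (S : Sys a q b X0 v0 w0 X1 v1 w1 X2 v2 w2) : v1 * w0⁻¹ = X1 * w2 := by
  have h := S.prodw
  have h1 : w2 = w1⁻¹ * w0⁻¹ := by
    have : w2 = (w0 * w1)⁻¹ * (w0 * w1 * w2) := by group
    rw [this, h]; group
  rw [h1, S.p1]; group

theorem Sys.X2X0 (S : Sys a q b X0 v0 w0 X1 v1 w1 X2 v2 w2) : X2 * X0 = X1⁻¹ := by
  have h := S.prodX
  have : X1⁻¹ = X1⁻¹ * (X0⁻¹ * (X0 * X1 * X2) * X0) := by rw [h]; group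
  rw [this]; group

theorem Sys.X1X2 (S : Sys a q b X0 v0 w0 X1 v1 w1 X2 v2 w2) : X1 * X2 = X0⁻¹ := by
  have h := S.prodX
  have : X1 * X2 = X0⁻¹ * (X0 * X1 * X2) := by group
  rw [this, h]; group

end alg

end Pool.Agent.L7h40.P3
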