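import Pool.Agent.L7h40.P3.Excl

set_option autoImplicit false

/-!
# The signs of the `C i` at a point agree
-/

namespace Pool.Agent.L7h40.P3

section
variable {G Ω : Type*} [Group G] [LinearOrder Ω] [MulAction G Ω]

theorem Mono.dual (M : Mono G Ω) : Mono G Ωᵒᵈ := fun g u v h =>
  M g (OrderDual.ofDual v) (OrderDual.ofDual u) h

variable (M : Mono G Ω) {a q b : ℕ} {X v w : G}
include M

/-- A descending transition. -/
theorem desc (hp : X = v * w) (ha : 0 < a) (hb : 0 < b) (hq : a ≤ q) {y : Ω}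
    (h1 : y ≤ (w ^ (b + 1) * X ^ a) • y) (h2 : (w ^ b * X ^ (a + 1)) • y ≤ y)
    (h3 : ¬ ((w ^ (b + 1) * X ^ a) • y = y ∧ (w ^ b * X ^ (a + 1)) • y = y)) :
    v ^ (q + 1) • y < X ^ (a + 1) • y ∧ v ^ q • X • y < X ^ (a + 1) • y := by
  rw [mul_smul] at h1 h2 h3
  rw [mul_smul] at h3
  have hX : X • y < y := by
    by_contra h
    rw [not_lt] at h
    have e1 : w ^ b • X ^ a • y ≤ w ^ b • X ^ (a + 1) • y := M _ _ _ (pow_mono M h (Nat.le_succ a))
    have e2 : w • X ^ a • y ≤ X ^ a • y := by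
      apply le_of_pow M hb
      exact (e1.trans h2).trans (le_pow M h a)
    have e3 : w ^ (b + 1) • X ^ a • y ≤ w ^ b • X ^ a • y := by
      rw [pow_succ, mul_smul]; exact M _ _ _ e2
    apply h3
    exact ⟨le_antisymm (e3.trans (e1.trans h2)) h1,
      le_antisymm h2 (h1.trans (e3.trans e1))⟩
  have hw : y < w • y := by
    by_contra h
    rw [not_lt] at h
    have e1 : w ^ (b + 1) • X ^ a • y < w ^ (b + 1) • y := mono_lt M _ (pow_lt M hX ha)
    exact absurd (h1.trans_lt (e1.trans_le (pow_le M h _))) (lt_irrefl _)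
  have hu : ∀ j ≤ a, X ^ j • y < w • X ^ j • y := by
    intro j hj
    by_contra h
    rw [not_lt] at h
    have e1 : w ^ (b + 1) • X ^ a • y ≤ w ^ (b + 1) • X ^ j • y := M _ _ _ (pow_anti M hX.le hj)
    have e2 := pow_le M h (b + 1)
    have e3 : X ^ j • y ≤ y := pow_le M hX.le j
    have e4 : X ^ j • y = y := le_antisymm e3 (h1.trans (e1.trans e2))
    rw [e4] at h
    exact absurd hw (not_lt.mpr h)
  have hstep : ∀ j ≤ a, v • X ^ j • y < X ^ (j + 1) • y := by
    intro j hj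
    have e : X ^ (j + 1) • y = v • w • X ^ j • y := by
      rw [pow_succ', mul_smul]
      conv_lhs => rw [hp, mul_smul, ← hp]
    rw [e]
    exact mono_lt M v (hu j hj)
  have hv : v • y < y := by
    have := hstep 0 (Nat.zero_le _)
    rw [pow_zero, one_smul, zero_add, pow_one] at this
    exact this.trans hX
  have k1 : ∀ j ≤ a, v ^ (j + 1) • y < X ^ (j + 1) • y := by
    intro j
    induction j with
    | zero =>
      intro _
      have := hstep 0 (Nat.zero_le _)
      rw [pow_zero, one_smul] at this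
      rw [zero_add, pow_one]; rw [zero_add] at this; rwa [pow_one] at this ⊢
    | succ j ih =>
      intro hj
      rw [pow_succ', mul_smul]
      exact (mono_lt M v (ih (by omega))).trans (hstep (j + 1) hj)
  have k2 : ∀ j, j + 1 ≤ a → v ^ (j + 1) • X • y < X ^ (j + 1 + 1) • y := by
    intro j
    induction j with
    | zero =>
      intro hj
      have := hstep 1 hj
      rw [pow_one] at this
      rw [zero_add, pow_one]; exact this
    | succ j ih =>
      intro hj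
      rw [pow_succ', mul_smul]
      exact (mono_lt M v (ih (by omega))).trans (hstep (j + 1 + 1) hj)
  have hvX : v • X • y < X • y := by
    have e1 := hstep 1 ha
    rw [pow_one] at e1
    refine e1.trans ?_
    rw [pow_succ', pow_one, mul_smul]
    exact mono_lt M _ hX
  obtain ⟨k, rfl⟩ : ∃ k, a = k + 1 := ⟨a - 1, by omega⟩
  refine ⟨(pow_anti M hv.le (by omega)).trans_lt (k1 (k + 1) le_rfl),
    (pow_anti M hvX.le hq).trans_lt (k2 k le_rfl)⟩

/-- At a common fixed point of `C` before and after a stage everything is fixed. -/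
theorem fixed_of (hp : X = v * w) (hb : 0 < b) {y : Ω}
    (h1 : (w ^ (b + 1) * X ^ a) • y = y) (h2 : (w ^ b * X ^ (a + 1)) • y = y) :
    X • y = y ∧ v • y = y := by
  rw [mul_smul] at h1 h2
  have key : ∀ (Ω : Type _) [LinearOrder Ω] [MulAction G Ω] (_ : Mono G Ω) (y : Ω),
      w ^ (b + 1) • X ^ a • y = y → w ^ b • X ^ (a + 1) • y = y → X • y ≤ y := by
    intro Ω _ _ M y h1 h2
    by_contra h
    rw [not_le] at h
    have e1 : w ^ b • X ^ a • y < y := by
      calc w ^ b • X ^ a • y < w ^ b • X ^ (a + 1) • y := by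
            apply mono_lt M
            rw [pow_succ, mul_smul]; exact mono_lt M _ h
        _ = y := h2
    have e2 : w • X ^ a • y ≤ X ^ a • y := by
      apply le_of_pow M hb
      exact e1.le.trans (le_pow M h.le a)
    have e3 : w ^ (b + 1) • X ^ a • y ≤ w ^ b • X ^ a • y := by
      rw [pow_succ, mul_smul]; exact M _ _ _ e2
    rw [h1] at e3
    exact absurd e1 (not_lt.mpr e3)
  have x1 : X • y = y := le_antisymm (key Ω M y h1 h2) (key Ωᵒᵈ M.dual y h1 h2)
  have x2 : X ^ a • y = y := le_antisymm (pow_le M x1.le a) (le_pow M x1.ge a)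
  rw [x2] at h1
  have x3 : w • y = y := by
    apply le_antisymm
    · exact le_of_pow M (Nat.succ_pos b) h1.le
    · exact le_of_pow (Ω := Ωᵒᵈ) M.dual (Nat.succ_pos b) (show w ^ (b + 1) • (OrderDual.toDual y) ≤ OrderDual.toDual y from h1.ge)
  refine ⟨x1, ?_⟩
  have : v • w • y = y := by rw [← mul_smul, ← hp, x1]
  rwa [x3] at this

end

section
variable {G Ω : Type*} [Group G] [LinearOrder Ω] [MulAction G Ω] (M : Mono G Ω)
  {a q b : ℕ} {X0 v0 w0 X1 v1 w1 X2 v2 w2 : G}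
include M

/-- If `C 0` moves `y` up then `C 1` moves `y` up. -/
theorem up_next (S : Sys a q b X0 v0 w0 X1 v1 w1 X2 v2 w2) (ha : 0 < a) (hb : 0 < b)
    (hq : a ≤ q) {y : Ω} (h : y < (w0 ^ (b + 1) * X0 ^ a) • y) :
    y < (w1 ^ (b + 1) * X1 ^ a) • y := by
  by_contra h1
  rw [not_lt] at h1
  -- a descending transition at stage 0
  have d := desc M S.p0 ha hb hq h.le (by rw [← S.C0]; exact h1)
    (fun e => absurd e.1 h.ne')
  have e1 : v1 ^ (q + 1) • y < X1 ^ (a + 1) • y := by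
    have h2 : ((X0 ^ (a + 1))⁻¹ * v0 ^ q * X0) • y < y := by
      rw [mul_assoc, mul_smul, inv_lt M, mul_smul]; exact d.2
    rw [← S.A0, mul_smul, inv_lt M] at h2
    exact h2
  rcases lt_or_ge y ((w2 ^ (b + 1) * X2 ^ a) • y) with h2 | h2
  · -- ascending at stage 1
    have u := desc (Ω := Ωᵒᵈ) M.dual S.p1 ha hb hq (y := OrderDual.toDual y) h1
      (by rw [← S.rot.C0]; exact h2.le)
      (fun e => by
        have e2 := e.2
        rw [← S.rot.C0] at e2
        exact absurd e2 h2.ne')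
    exact absurd e1 (not_lt.mpr (le_of_lt u.1))
  · -- ascending at stage 2
    have u := desc (Ω := Ωᵒᵈ) M.dual S.p2 ha hb hq (y := OrderDual.toDual y) h2
      (by rw [← S.rot.rot.C0]; exact h.le)
      (fun e => by
        have e2 := e.2
        rw [← S.rot.rot.C0] at e2
        exact absurd e2 h.ne')
    have u2 : X2 ^ (a + 1) • y < v2 ^ q • X2 • y := u.2
    have h3 : y < ((X2 ^ (a + 1))⁻¹ * v2 ^ q * X2) • y := by
      rw [mul_assoc, mul_smul, lt_inv M, mul_smul]; exact u2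
    rw [← S.rot.rot.A0, mul_smul, lt_inv M] at h3
    exact absurd d.1 (not_lt.mpr h3.le)

/-- At every point all `C i` have the same sign or `X0`, `v0` fix the point. -/
theorem signs (S : Sys a q b X0 v0 w0 X1 v1 w1 X2 v2 w2) (ha : 0 < a) (hb : 0 < b)
    (hq : a ≤ q) (y : Ω) :
    (y < (w0 ^ (b + 1) * X0 ^ a) • y ∧ y < (w1 ^ (b + 1) * X1 ^ a) • y ∧
      y < (w2 ^ (b + 1) * X2 ^ a) • y) ∨
    ((w0 ^ (b + 1) * X0 ^ a) • y < y ∧ (w1 ^ (b + 1) * X1 ^ a) • y < y ∧
      (w2 ^ (b + 1) * X2 ^ a) • y < y) ∨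
    ((X0 • y = y ∧ v0 • y = y) ∧ (X1 • y = y ∧ v1 • y = y) ∧ (X2 • y = y ∧ v2 • y = y)) := by
  have hup : ∀ (Ω : Type _) [LinearOrder Ω] [MulAction G Ω] (_ : Mono G Ω) (y : Ω),
      (y < (w0 ^ (b + 1) * X0 ^ a) • y ∨ y < (w1 ^ (b + 1) * X1 ^ a) • y ∨
        y < (w2 ^ (b + 1) * X2 ^ a) • y) →
      (y < (w0 ^ (b + 1) * X0 ^ a) • y ∧ y < (w1 ^ (b + 1) * X1 ^ a) • y ∧
        y < (w2 ^ (b + 1) * X2 ^ a) • y) := by
    intro Ω _ _ M y h
    have k0 : y < (w0 ^ (b + 1) * X0 ^ a) • y → y < (w1 ^ (b + 1) * X1 ^ a) • y :=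
      up_next M S ha hb hq
    have k1 : y < (w1 ^ (b + 1) * X1 ^ a) • y → y < (w2 ^ (b + 1) * X2 ^ a) • y :=
      up_next M S.rot ha hb hq
    have k2 : y < (w2 ^ (b + 1) * X2 ^ a) • y → y < (w0 ^ (b + 1) * X0 ^ a) • y :=
      up_next M S.rot.rot ha hb hq
    tauto
  by_cases h : y < (w0 ^ (b + 1) * X0 ^ a) • y ∨ y < (w1 ^ (b + 1) * X1 ^ a) • y ∨
        y < (w2 ^ (b + 1) * X2 ^ a) • y
  · exact Or.inl (hup Ω M y h)
  by_cases h' : (w0 ^ (b + 1) * X0 ^ a) • y < y ∨ (w1 ^ (b + 1) * X1 ^ a) • y < y ∨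
        (w2 ^ (b + 1) * X2 ^ a) • y < y
  · exact Or.inr (Or.inl (hup Ωᵒᵈ M.dual (OrderDual.toDual y) h'))
  push Not at h h'
  have e0 := le_antisymm h.1 h'.1
  have e1 := le_antisymm h.2.1 h'.2.1
  have e2 := le_antisymm h.2.2 h'.2.2
  refine Or.inr (Or.inr ⟨?_, ?_, ?_⟩)
  · exact fixed_of M S.p0 hb e0 (by rw [← S.C0]; exact e1)
  · exact fixed_of M S.p1 hb e1 (by rw [← S.rot.C0]; exact e2)
  · exact fixed_of M S.p2 hb e2 (by rw [← S.rot.rot.C0]; exact e0)

end

end Pool.Agent.L7h40.P3
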